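import Pool.Agent.MP_09973c_nt.H58.SpecT

/-!
Products of expansions and the application of the Siegel step.
-/

set_option autoImplicit false

namespace Pool.Agent.MP_09973c_nt.H24

open Polynomial Finset Pool.Agent.MP_09973c_nt.H58

/-- `u` is approximated by `f` at `ϖ`, in a multiplicative form. -/
def AP (G : Subgroup Gal) (N : ℕ) (ϖ u : Qb) (f : Qb[X]) (d : ℕ) (K : ℝ) : Prop :=
  ∃ a b : ℝ, 0 ≤ b ∧ a + b ≤ K ∧ PSz f d a ∧ (∀ g ∈ G, f.map (g : Qb →+* Qb) = f) ∧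
    ‖u - f.eval ϖ‖ ≤ b * ‖ϖ‖ ^ N

variable {G : Subgroup Gal} {N : ℕ} {ϖ : Qb}

theorem AP.nonneg {u : Qb} {f : Qb[X]} {d : ℕ} {K : ℝ} (h : AP G N ϖ u f d K) : 0 ≤ K := by
  obtain ⟨a, b, hb, hK, hP, -, -⟩ := h
  have := hP.nonneg
  linarith

theorem AP.mono {u : Qb} {f : Qb[X]} {d d' : ℕ} {K K' : ℝ} (h : AP G N ϖ u f d K) (hd : d ∣ d')
    (hK : K ≤ K') : AP G N ϖ u f d' K' := by
  obtain ⟨a, b, hb, hK', hP, hf, he⟩ := h
  exact ⟨a, b, hb, hK'.trans hK, hP.mono hd le_rfl, hf, he⟩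

theorem AP.xpow (j : ℕ) : AP G N ϖ (ϖ ^ j) (X ^ j) 1 1 :=
  ⟨1, 0, le_rfl, by norm_num, PSz.X_pow j, fun g _ => by simp, by simp⟩

theorem AP.one : AP G N ϖ 1 1 1 1 := by simpa using AP.xpow (G := G) (N := N) (ϖ := ϖ) 0

theorem AP.mul (hϖ : ‖ϖ‖ ≤ 1) {u u' : Qb} {f f' : Qb[X]} {d d' : ℕ} {K K' : ℝ}
    (h : AP G N ϖ u f d K) (h' : AP G N ϖ u' f' d' K') :
    AP G N ϖ (u * u') (f * f') (d * d') (K * K') := by
  obtain ⟨a, b, hb, hK, hP, hf, he⟩ := h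
  obtain ⟨a', b', hb', hK', hP', hf', he'⟩ := h'
  have ha := hP.nonneg
  have ha' := hP'.nonneg
  have hv : ‖f.eval ϖ‖ ≤ a := (norm_eval_le f hϖ).trans hP.l1_le
  have hv' : ‖f'.eval ϖ‖ ≤ a' := (norm_eval_le f' hϖ).trans hP'.l1_le
  have hε0 : 0 ≤ ‖ϖ‖ ^ N := by positivity
  have hε1 : ‖ϖ‖ ^ N ≤ 1 := pow_le_one₀ (norm_nonneg _) hϖ
  refine ⟨a * a', b * b' + b * a' + a * b', by positivity, ?_, hP.mul hP', fun g hg => ?_, ?_⟩
  · calc a * a' + (b * b' + b * a' + a * b') = (a + b) * (a' + b') := by ring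
      _ ≤ K * K' := mul_le_mul hK hK' (by positivity) (by linarith)
  · rw [Polynomial.map_mul, hf g hg, hf' g hg]
  · have e : u * u' - (f * f').eval ϖ = (u - f.eval ϖ) * (u' - f'.eval ϖ) +
        (u - f.eval ϖ) * f'.eval ϖ + f.eval ϖ * (u' - f'.eval ϖ) := by
      rw [eval_mul]; ring
    rw [e]
    have h1 : ‖(u - f.eval ϖ) * (u' - f'.eval ϖ)‖ ≤ b * b' * ‖ϖ‖ ^ N := by
      rw [norm_mul]
      calc _ ≤ (b * ‖ϖ‖ ^ N) * (b' * 1) :=
            mul_le_mul he (he'.trans (mul_le_mul_of_nonneg_left hε1 hb')) (norm_nonneg _)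
              (by positivity)
        _ = _ := by ring
    have h2 : ‖(u - f.eval ϖ) * f'.eval ϖ‖ ≤ b * a' * ‖ϖ‖ ^ N := by
      rw [norm_mul]
      calc _ ≤ (b * ‖ϖ‖ ^ N) * a' := mul_le_mul he hv' (norm_nonneg _) (by positivity)
        _ = _ := by ring
    have h3 : ‖f.eval ϖ * (u' - f'.eval ϖ)‖ ≤ a * b' * ‖ϖ‖ ^ N := by
      rw [norm_mul]
      calc _ ≤ a * (b' * ‖ϖ‖ ^ N) := mul_le_mul hv he' (norm_nonneg _) ha
        _ = _ := by ring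
    calc _ ≤ _ := norm_add₃_le
      _ ≤ b * b' * ‖ϖ‖ ^ N + b * a' * ‖ϖ‖ ^ N + a * b' * ‖ϖ‖ ^ N := by linarith
      _ = _ := by ring

theorem AP.pow (hϖ : ‖ϖ‖ ≤ 1) {u : Qb} {f : Qb[X]} {d : ℕ} {K : ℝ} (h : AP G N ϖ u f d K)
    (n : ℕ) : AP G N ϖ (u ^ n) (f ^ n) (d ^ n) (K ^ n) := by
  induction n with
  | zero => simpa using AP.one
  | succ n ih => simpa only [pow_succ] using ih.mul hϖ h

theorem AP.prod (hϖ : ‖ϖ‖ ≤ 1) {κ : Type} (T : Finset κ) {u : κ → Qb} {f : κ → Qb[X]}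
    {d : κ → ℕ} {K : κ → ℝ} (h : ∀ x ∈ T, AP G N ϖ (u x) (f x) (d x) (K x)) :
    AP G N ϖ (∏ x ∈ T, u x) (∏ x ∈ T, f x) (∏ x ∈ T, d x) (∏ x ∈ T, K x) := by
  classical
  induction T using Finset.induction_on with
  | empty => simpa using AP.one
  | insert x T hx ih =>
    simp only [prod_insert hx]
    exact (h x (mem_insert_self _ _)).mul hϖ (ih fun y hy => h y (mem_insert_of_mem hy))

theorem AP.of_xp {m : ℕ} {z : Qb} {lam : ℝ} (h : Xp G m N ϖ z lam) :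
    ∃ (f : Qb[X]) (d : ℕ), 0 < d ∧ Real.log d ≤ lam ∧ AP G N ϖ z f d (Real.exp (lam + 1)) := by
  obtain ⟨f, d, hd, hl, hP, -, hf, he⟩ := h
  refine ⟨f, d, hd, hl, Real.exp lam, Real.exp lam, (Real.exp_pos _).le, ?_, hP,
    fun g hg => Polynomial.ext fun n => by rw [coeff_map]; exact hf g hg n, he⟩
  have h1 : (2 : ℝ) ≤ Real.exp 1 := by linarith [Real.add_one_le_exp (1 : ℝ)]
  rw [Real.exp_add]
  nlinarith [Real.exp_pos lam]

theorem AP.out {u : Qb} {f : Qb[X]} {d : ℕ} {K : ℝ} (h : AP G N ϖ u f d K) :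
    PSz f d K ∧ (∀ g ∈ G, ∀ n, g (f.coeff n) = f.coeff n) ∧ ‖u - f.eval ϖ‖ ≤ K * ‖ϖ‖ ^ N := by
  obtain ⟨a, b, hb, hK, hP, hf, he⟩ := h
  have ha := hP.nonneg
  refine ⟨hP.mono dvd_rfl (by linarith), fun g hg n => ?_, he.trans ?_⟩
  · have := congrArg (fun P => P.coeff n) (hf g hg)
    simpa [coeff_map] using this
  · exact mul_le_mul_of_nonneg_right (by linarith) (by positivity)

/-- Expansions of all monomials on one side. -/
theorem side (hϖ : ‖ϖ‖ ≤ 1) {κ : Type} (T : Finset κ) (y : κ → Qb) (w : κ → ℕ) (q c Q : ℕ)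
    (lam : ℝ) (hlam : 0 ≤ lam) (hc : T.card ≤ c) (hw : ∀ x ∈ T, w x ≤ Q)
    (h : ∀ x ∈ T, ∃ m, Xp G m N ϖ (y x * ϖ ^ w x) lam) :
    ∃ d : ℕ, 0 < d ∧ Real.log d ≤ c * q * (lam + 1) ∧ ∀ e : κ → ℕ, (∀ x, e x ≤ q) →
      ∃ f, AP G N ϖ ((∏ x ∈ T, y x ^ e x) * ϖ ^ (c * q * Q)) f d
        (Real.exp (c * q * (lam + 1))) := by
  classical
  have h1 : ∀ x, ∃ (f : Qb[X]) (d : ℕ), 0 < d ∧ (x ∈ T → Real.log d ≤ lam ∧
      AP G N ϖ (y x * ϖ ^ w x) f d (Real.exp (lam + 1))) := by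
    intro x
    by_cases hx : x ∈ T
    · obtain ⟨m, hm⟩ := h x hx
      obtain ⟨f, d, hd, h2⟩ := AP.of_xp hm
      exact ⟨f, d, hd, fun _ => h2⟩
    · exact ⟨0, 1, one_pos, fun h => absurd h hx⟩
  choose f d hd hf using h1
  have hcR : (T.card : ℝ) ≤ c := by exact_mod_cast hc
  have hsum : ∑ _x ∈ T, (q : ℝ) * (lam + 1) ≤ c * q * (lam + 1) := by
    rw [sum_const, nsmul_eq_mul, mul_assoc]
    exact mul_le_mul_of_nonneg_right hcR (by positivity)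
  refine ⟨∏ x ∈ T, d x ^ q, prod_pos fun x _ => pow_pos (hd x) _, ?_, fun e he => ?_⟩
  · rw [Nat.cast_prod, Real.log_prod (fun x _ => by have := hd x; positivity)]
    refine le_trans (sum_le_sum fun x hx => ?_) hsum
    rw [Nat.cast_pow, Real.log_pow]
    exact mul_le_mul_of_nonneg_left (by linarith [(hf x hx).1]) (by positivity)
  · have hle : ∑ x ∈ T, w x * e x ≤ c * q * Q := by
      calc ∑ x ∈ T, w x * e x ≤ ∑ _x ∈ T, q * Q := sum_le_sum fun x hx => by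
            rw [mul_comm]; exact Nat.mul_le_mul (he x) (hw x hx)
        _ = T.card * (q * Q) := by rw [sum_const, smul_eq_mul]
        _ ≤ c * q * Q := by rw [mul_assoc]; exact Nat.mul_le_mul_right _ hc
    obtain ⟨r, hr⟩ := Nat.exists_eq_add_of_le hle
    have h2 := (AP.prod hϖ T fun x hx => ((hf x hx).2.pow hϖ (e x)).mono
      (pow_dvd_pow (d x) (he x)) (K' := Real.exp (q * (lam + 1))) (by
        rw [← Real.exp_nat_mul]
        exact Real.exp_le_exp.2 (mul_le_mul_of_nonneg_right (by exact_mod_cast he x)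
          (by linarith)))).mul hϖ (AP.xpow r)
    have h3 : (∏ x ∈ T, y x ^ e x) * ϖ ^ (c * q * Q) =
        (∏ x ∈ T, (y x * ϖ ^ w x) ^ e x) * ϖ ^ r := by
      rw [hr, pow_add, ← prod_pow_eq_pow_sum, ← mul_assoc, ← prod_mul_distrib]
      congr 1
      exact prod_congr rfl fun x _ => by rw [mul_pow, pow_mul]
    rw [h3]
    refine ⟨_, h2.mono (by rw [mul_one]) ?_⟩
    rw [mul_one, ← Real.exp_sum]
    exact Real.exp_le_exp.2 hsum

/-- The Siegel step for monomials in at most four chains. -/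
theorem core (hRL : RL0Stmt) {n q J₀ J L : ℕ} (hn : n ≤ 4) (hq : 1 ≤ q) (hJ : 1 ≤ J)
    (W : Fin n → ℕ → Qb) (s : Fin n → Prop) (G H : Subgroup Gal) (N N' Q Q' d : ℕ) (ϖ ϖ' : Qb)
    (w : ℕ → ℕ) (lam h y B T : ℝ) (hG : G.index ≠ 0) (hH : H.index ≠ 0) (hHL : H.index ≤ 2 ^ L)
    (hfix : ∀ g ∈ H, ∀ m, ∀ i ≤ J, g (W m i) = W m i) (hd : 0 < d) (hdl : Real.log d ≤ B * h)
    (hSz : ∀ m, ∀ i ≤ J, Sz (W m i) d (Real.exp (B * h)))
    (hcount : 4 * G.index * N * N' ≤ q ^ (n * (J - J₀)))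
    (hX : ∀ m, s m → ∀ i ≤ J, w i ≤ Q ∧ ∃ m₀, Xp G m₀ N ϖ (W m i * ϖ ^ w i) lam)
    (hX' : ∀ m, ¬ s m → ∀ i ≤ J, w i ≤ Q' ∧ ∃ m₀, Xp G m₀ N' ϖ' (W m i * ϖ' ^ w i) lam)
    (hϖ : ‖ϖ‖ ≤ 1) (hϖ' : ‖ϖ'‖ ≤ 1) (hQ : Real.exp (-(B * h)) ≤ ‖ϖ‖ ^ Q)
    (hQ' : Real.exp (-(B * h)) ≤ ‖ϖ'‖ ^ Q') (hN : ‖ϖ‖ ^ N ≤ Real.exp (-(h * T)))
    (hN' : ‖ϖ'‖ ^ N' ≤ Real.exp (-(h * T))) (hB : 0 ≤ B) (hh : 1 ≤ h) (hlam : 0 ≤ lam)
    (hy : 80 * q * J * (lam + 1) ≤ y) (hyh : y ≤ h)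
    (hT : 2 ^ L * (4 + 8 * J * q * B) + 8 * J * q * B + 1 ≤ T) : Rel q J₀ J W y := by
  classical
  have hcard : Fintype.card (Fin n × Fin (J - J₀)) ≤ 4 * J := by
    rw [Fintype.card_prod, Fintype.card_fin, Fintype.card_fin]
    exact Nat.mul_le_mul hn (Nat.sub_le _ _)
  have hlev : ∀ z : Fin n × Fin (J - J₀), J₀ + z.2 + 1 ≤ J := fun z => by
    have := z.2.2; omega
  have hfc : ∀ P : Finset (Fin n × Fin (J - J₀)), P.card ≤ 4 * J := fun P =>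
    (card_le_univ _).trans hcard
  obtain ⟨d₁, hd₁, hl₁, h₁⟩ := side (G := G) (N := N) hϖ (univ.filter fun z => s z.1)
    (fun z : Fin n × Fin (J - J₀) => W z.1 (J₀ + z.2 + 1)) (fun z => w (J₀ + z.2 + 1)) q (4 * J) Q
    lam hlam (hfc _) (fun z hz => (hX _ (mem_filter.1 hz).2 _ (hlev z)).1)
    (fun z hz => (hX _ (mem_filter.1 hz).2 _ (hlev z)).2)
  obtain ⟨d₂, hd₂, hl₂, h₂⟩ := side (G := G) (N := N') hϖ' (univ.filter fun z => ¬ s z.1)
    (fun z : Fin n × Fin (J - J₀) => W z.1 (J₀ + z.2 + 1)) (fun z => w (J₀ + z.2 + 1)) q (4 * J) Q'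
    lam hlam (hfc _) (fun z hz => (hX' _ (mem_filter.1 hz).2 _ (hlev z)).1)
    (fun z hz => (hX' _ (mem_filter.1 hz).2 _ (hlev z)).2)
  choose f hf using fun e : Fin n × Fin (J - J₀) → Fin q =>
    h₁ (fun z => e z) fun z => (e z).2.le
  choose f' hf' using fun e : Fin n × Fin (J - J₀) → Fin q =>
    h₂ (fun z => e z) fun z => (e z).2.le
  push_cast at hl₁ hl₂ hf hf'
  obtain ⟨Λ, hΛ⟩ : ∃ Λ : ℝ, Λ = 4 * J * q * (lam + 1) := ⟨_, rfl⟩
  rw [← hΛ] at hl₁ hl₂ hf hf'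
  have hqR : (1 : ℝ) ≤ q := by exact_mod_cast hq
  have hJR : (1 : ℝ) ≤ J := by exact_mod_cast hJ
  have hJq : (1 : ℝ) ≤ J * q := one_le_mul_of_one_le_of_one_le hJR hqR
  have hΛ1 : 4 * J * q ≤ Λ := by rw [hΛ]; nlinarith
  have hΛy : 10 * (2 * Λ) ≤ y := by rw [hΛ]; linarith
  have hBh : 0 ≤ B * h := by positivity
  have hcι : Fintype.card (Fin n × Fin (J - J₀) → Fin q) = q ^ (n * (J - J₀)) := by simp
  have hcR : (Fintype.card (Fin n × Fin (J - J₀)) : ℝ) ≤ 4 * J := by exact_mod_cast hcard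
  have hexp : Real.exp Λ ≤ Real.exp (2 * Λ) := Real.exp_le_exp.2 (by linarith)
  refine Exists.imp (fun c hc => ⟨hc.1, fun e => (hc.2.1 e).trans (Real.exp_le_exp.2 hΛy), hc.2.2⟩)
    (hRL (Fin n × Fin (J - J₀) → Fin q) G H N N' (d₁ * d₂)
    (d ^ (4 * J * q)) ϖ ϖ' (ϖ ^ (4 * J * q * Q) * ϖ' ^ (4 * J * q * Q')) (fun e => mon W e)
    (fun e => (∏ z ∈ univ.filter fun z => s z.1, W z.1 (J₀ + z.2 + 1) ^ (e z : ℕ)) *
      ϖ ^ (4 * J * q * Q))
    (fun e => (∏ z ∈ univ.filter fun z => ¬ s z.1, W z.1 (J₀ + z.2 + 1) ^ (e z : ℕ)) *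
      ϖ' ^ (4 * J * q * Q')) f f' (2 * Λ) (4 * J * q * (B * h)) hG hH
    (by rw [hcι]; positivity) (by rw [hcι]; exact hcount) (by linarith) (by positivity)
    (by
      rw [Fintype.card_fun, Fintype.card_fin, Nat.cast_pow, Real.log_pow]
      have := Real.log_le_self (show (0 : ℝ) ≤ q by positivity)
      have h0 := Real.log_nonneg hqR
      calc _ ≤ 4 * J * (q : ℝ) := mul_le_mul hcR this h0 (by positivity)
        _ ≤ _ := by linarith)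
    (by positivity)
    (by rw [Nat.cast_mul, Real.log_mul (by positivity) (by positivity)]; linarith)
    (by positivity)
    (by
      rw [Nat.cast_pow, Real.log_pow]; push_cast
      exact mul_le_mul_of_nonneg_left hdl (by positivity))
    hϖ hϖ' (fun e => ?_) ?_)
  · obtain ⟨a1, a2, a3⟩ := ((hf e).mono (Dvd.intro _ rfl : d₁ ∣ d₁ * d₂) hexp).out
    obtain ⟨b1, b2, b3⟩ := ((hf' e).mono (Dvd.intro_left _ rfl : d₂ ∣ d₁ * d₂) hexp).out
    refine ⟨?_, a1, b1, fun g hg n => ⟨a2 g hg n, b2 g hg n⟩, a3, b3, fun g hg => ?_, ?_⟩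
    · rw [mon, ← prod_filter_mul_prod_filter_not univ fun z => s z.1]; ring
    · rw [mon, map_prod]
      exact prod_congr rfl fun z _ => by rw [map_pow, hfix g hg _ _ (hlev z)]
    · have h3 := Sz.prod univ fun (z : Fin n × Fin (J - J₀)) _ =>
        ((hSz z.1 _ (hlev z)).pow (e z)).mono (pow_dvd_pow d (e z).2.le)
          (H' := Real.exp (q * (B * h))) (by
            rw [← Real.exp_nat_mul]
            exact Real.exp_le_exp.2 (mul_le_mul_of_nonneg_right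
              (by exact_mod_cast (e z).2.le) hBh))
      refine h3.mono ?_ ?_
      · rw [prod_const, ← pow_mul, card_univ, mul_comm]
        exact pow_dvd_pow _ (Nat.mul_le_mul_right _ hcard)
      · rw [prod_const, card_univ, ← Real.exp_nat_mul]
        refine Real.exp_le_exp.2 ?_
        rw [mul_assoc (4 * (J : ℝ))]
        exact mul_le_mul_of_nonneg_right hcR (by positivity)
  · have hI : (H.index : ℝ) ≤ 2 ^ L := by exact_mod_cast hHL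
    have h2L : (1 : ℝ) ≤ 2 ^ L := one_le_pow₀ (by norm_num)
    have hp : ∀ (x : Qb) (R : ℕ), Real.exp (-(B * h)) ≤ ‖x‖ ^ R →
        Real.exp (-(4 * J * q * (B * h))) ≤ ‖x ^ (4 * J * q * R)‖ := fun x R hx => by
      rw [norm_pow, mul_comm (4 * J * q) R, pow_mul]
      refine le_trans (le_of_eq ?_) (pow_le_pow_left₀ (Real.exp_pos _).le hx _)
      rw [← Real.exp_nat_mul]; push_cast; ring_nf
    have hπ : Real.exp (-(4 * J * q * (B * h))) * Real.exp (-(4 * J * q * (B * h))) ≤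
        ‖ϖ ^ (4 * J * q * Q) * ϖ' ^ (4 * J * q * Q')‖ := by
      rw [norm_mul]
      exact mul_le_mul (hp _ _ hQ) (hp _ _ hQ') (Real.exp_pos _).le (norm_nonneg _)
    refine lt_of_lt_of_le ?_ hπ
    obtain ⟨η, hη⟩ : ∃ η : ℝ, η = 4 * J * q * (B * h) := ⟨_, rfl⟩
    rw [← hη]
    have hη0 : 0 ≤ η := by rw [hη]; positivity
    have h4 : 20 * (2 * Λ) + H.index * (2 * η + 20 * (2 * Λ)) ≤ 2 ^ L * (4 * h + 2 * η) := by
      have h5 : (H.index : ℝ) * (2 * η + 20 * (2 * Λ)) ≤ 2 ^ L * (2 * η + 2 * h) :=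
        mul_le_mul hI (by linarith) (by linarith) (by positivity)
      nlinarith
    have h6 : 2 ^ L * (4 * h + 2 * η) + 2 * η + h ≤ h * T := by
      calc 2 ^ L * (4 * h + 2 * η) + 2 * η + h =
            h * (2 ^ L * (4 + 8 * J * q * B) + 8 * J * q * B + 1) := by rw [hη]; ring
        _ ≤ h * T := mul_le_mul_of_nonneg_left hT (by linarith)
    have h7 : (2 : ℝ) < Real.exp h := by
      have := Real.add_one_lt_exp (show h ≠ 0 by linarith)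
      linarith
    calc _ ≤ (2 * Real.exp (-(h * T))) * Real.exp (2 ^ L * (4 * h + 2 * η)) :=
          mul_le_mul (by linarith) (Real.exp_le_exp.2 h4) (Real.exp_pos _).le (by positivity)
      _ < (Real.exp h * Real.exp (-(h * T))) * Real.exp (2 ^ L * (4 * h + 2 * η)) := by
          gcongr
      _ ≤ _ := by
          rw [← Real.exp_add, ← Real.exp_add, ← Real.exp_add]
          exact Real.exp_le_exp.2 (by linarith)

end Pool.Agent.MP_09973c_nt.H24
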