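import Pool.Agent.MP_09973c_nt.H24.AP

/-!
Expansions along the towers and the auxiliary relations.
-/

set_option autoImplicit false

namespace Pool.Agent.MP_09973c_nt.H24

open Polynomial Finset Filter Pool.Agent.MP_09973c_nt.H58

section Steps

variable {G : Subgroup Gal} {M N jm m : ℕ} {ϖ z : Qb} {lam lam' K : ℝ}

theorem xp_mono (h : Xp G m N ϖ z lam) (hl : lam ≤ lam') : Xp G m N ϖ z lam' := by
  obtain ⟨f, d, hd, h1, h2, h3, h4, h5⟩ := h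
  have := Real.exp_le_exp.2 hl
  exact ⟨f, d, hd, h1.trans hl, h2.mono dvd_rfl this, h3, h4,
    h5.trans (mul_le_mul_of_nonneg_right this (by positivity))⟩

theorem xp_one : Xp G 1 N ϖ 1 0 :=
  ⟨1, 1, one_pos, by simp, by simpa using PSz.one, by simp, fun g _ n => by
    rw [coeff_one]; split_ifs <;> simp, by simp⟩

theorem xp_root {κ : Qb} {r : ℕ} (hr : 0 < r) (hκ : κ ^ r = 1) (hG : ∀ g ∈ G, g κ = κ)
    (h : Xp G m N ϖ z lam) : Xp G (r * m) N ϖ (κ * z) lam := by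
  obtain ⟨f, d, hd, h1, h2, h3, h4, h5⟩ := h
  refine ⟨C κ * f, d, hd, h1, by simpa using (PSz.C (Sz.root hr hκ)).mul h2, ?_,
    fun g hg n => by rw [coeff_C_mul, map_mul, hG g hg, h4 g hg], ?_⟩
  · rw [coeff_C_mul, mul_pow, pow_mul, hκ, pow_mul', h3]; simp
  · rw [eval_mul, eval_C, ← mul_sub, norm_mul, norm_root hr hκ, one_mul]; exact h5

/-- The radical step with uniform constants. -/
def Stp (G : Subgroup Gal) (M N jm : ℕ) (ϖ : Qb) (K : ℝ) (r s : ℕ) (c : Qb) : Prop :=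
  ∀ (m n j : ℕ) (z z' : Qb), 0 < m → r * m ∣ M → 1 ≤ n → j < jm →
    Xp G m N ϖ z ((K + 1) ^ j - 1) → z' ^ r = z ^ s + c * ϖ ^ n →
    Xp G (r * m) N ϖ z' ((K + 1) ^ (j + 1) - 1)

theorem pow_of_dvd {η : Qb} {a b : ℕ} (h : a ∣ b) (hη : η ^ a = 1) : η ^ b = 1 := by
  obtain ⟨c, rfl⟩ := h
  rw [pow_mul, hη, one_pow]

theorem stp_of_ex (hEx : ExStmt) (r s : ℕ) (c : Qb) (hr : 0 < r) : ∃ C : ℕ, ∀ C' : ℕ, C ≤ C' →
    ∀ (G : Subgroup Gal) (M N jm : ℕ) (ϖ : Qb), 1 ≤ N → (∀ g ∈ G, g c = c) →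
      (∀ g ∈ G, ∀ η : Qb, η ^ M = 1 → g η = η) →
      ‖ϖ‖ * Real.exp (((C' : ℝ) * N ^ 2 + 1) ^ jm) ≤ 1 → Stp G M N jm ϖ (C' * N ^ 2) r s c := by
  obtain ⟨C, hC⟩ := hEx r s c hr
  refine ⟨C, fun C' hC' G M N jm ϖ hN hc hG hs m n j z z' hm hd hn hj hz hz' => ?_⟩
  obtain ⟨K, hK⟩ : ∃ K : ℝ, K = C' * N ^ 2 := ⟨_, rfl⟩
  rw [← hK] at hs hz ⊢
  have hK0 : 0 ≤ K := by rw [hK]; positivity
  have hCK : (C : ℝ) * N ^ 2 ≤ K := by
    rw [hK]; exact mul_le_mul_of_nonneg_right (by exact_mod_cast hC') (by positivity)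
  have h1 : (1 : ℝ) ≤ (K + 1) ^ j := one_le_pow₀ (by linarith)
  have h2 : (C : ℝ) * N ^ 2 * ((K + 1) ^ j - 1 + 1) ≤ (K + 1) ^ (j + 1) - 1 := by
    rw [pow_succ (K + 1), sub_add_cancel]
    nlinarith [mul_le_mul_of_nonneg_right hCK (zero_le_one.trans h1)]
  have h3 : (K + 1) ^ (j + 1) ≤ (K + 1) ^ jm := pow_le_pow_right₀ (by linarith) hj
  refine xp_mono (hC G m N n ϖ z z' _ hm hN hn (by linarith)
    (fun g hg => ⟨hc g hg, fun η hη => hG g hg η (pow_of_dvd hd hη)⟩) hz hz' ?_) h2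
  exact le_trans (mul_le_mul_of_nonneg_left (Real.exp_le_exp.2 (by linarith)) (norm_nonneg _)) hs

/-- The weights of the levels. -/
def om (p q J i : ℕ) : ℕ := p ^ i * q ^ (J - i)

theorem om_succ {p q J i : ℕ} (h : i + 1 ≤ J) : om p q J (i + 1) * q = om p q J i * p := by
  obtain ⟨r, rfl⟩ := Nat.exists_eq_add_of_le h
  simp only [om, show i + 1 + r - (i + 1) = r by omega, show i + 1 + r - i = r + 1 by omega]
  ring

theorem om_le {p q J i : ℕ} (hpq : p ≤ q) (h : i ≤ J) : om p q J i ≤ q ^ J := by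
  obtain ⟨r, rfl⟩ := Nat.exists_eq_add_of_le h
  rw [om, Nat.add_sub_cancel_left, pow_add]
  exact Nat.mul_le_mul_right _ (Nat.pow_le_pow_left hpq _)

theorem om_zero (p q J : ℕ) : om p q J 0 = q ^ J := by simp [om]

variable {p q J k : ℕ} {c : Qb} {x : ℕ → Qb}

theorem lev_eq (hx : Fwd p q c k x) (hJ : J ≤ k) {i : ℕ} (hi : i + 1 ≤ J) :
    (x (i + 1) * ϖ ^ om p q J (i + 1)) ^ q =
      (x i * ϖ ^ om p q J i) ^ p + c * ϖ ^ (om p q J i * p) := by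
  rw [mul_pow, mul_pow, ← pow_mul, ← pow_mul, om_succ hi, ← hx i (by omega)]; ring

theorem tower (hp : 0 < p) (hq : 0 < q) (hS : Stp G M N jm ϖ K q p c) (hx : Fwd p q c k x)
    (hJ : J ≤ k) (hG : ∀ g ∈ G, ∀ η : Qb, η ^ M = 1 → g η = η) {y : Qb} {j : ℕ} (hm : 0 < m)
    (hd : q ^ J * (q * m) ∣ M) (hj : j + J ≤ jm) (hy : x 0 ^ q = y ^ q)
    (h : Xp G m N ϖ (y * ϖ ^ om p q J 0) ((K + 1) ^ j - 1)) : ∀ i ≤ J,
      Xp G (q ^ i * (q * m)) N ϖ (x i * ϖ ^ om p q J i) ((K + 1) ^ (j + i) - 1) := by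
  intro i
  induction i with
  | zero =>
    intro _
    obtain ⟨κ, hκ, h0⟩ := exists_mul_of_pow_eq hq hy
    rw [h0, pow_zero, one_mul, mul_assoc]
    exact xp_root hq hκ (fun g hg => hG g hg κ (pow_of_dvd
      (((Dvd.intro _ rfl : q ∣ q * m).mul_left _).trans hd) hκ)) h
  | succ i ih =>
    intro hi
    rw [pow_succ', mul_assoc, ← add_assoc]
    refine hS _ _ _ _ _ (by positivity) ?_ (Nat.succ_le_of_lt ?_) (by omega) (ih (by omega))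
      (lev_eq hx hJ hi)
    · rw [← mul_assoc, ← pow_succ']
      exact (mul_dvd_mul_right (pow_dvd_pow q hi) _).trans hd
    · unfold om; positivity

theorem down (hp : 0 < p) (hq : 0 < q) (hS : Stp G M N jm ϖ K p q (-c)) (hx : Fwd p q c k x)
    (hJ : J ≤ k) : ∀ t ≤ J, ∀ m j : ℕ, 0 < m → p ^ t * m ∣ M → j + t ≤ jm →
      Xp G m N ϖ (x t * ϖ ^ om p q J t) ((K + 1) ^ j - 1) →
      Xp G (p ^ t * m) N ϖ (x 0 * ϖ ^ om p q J 0) ((K + 1) ^ (j + t) - 1) := by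
  intro t
  induction t with
  | zero => intro _ m j _ _ _ h; simpa using h
  | succ t ih =>
    intro ht m j hm hd hj h
    rw [pow_succ, mul_assoc] at hd ⊢
    rw [show j + (t + 1) = j + 1 + t by omega]
    refine ih (by omega) _ _ (by positivity) hd (by omega) (hS m (om p q J t * p) j _ _ hm
      ((Dvd.intro_left _ rfl).trans hd) (Nat.succ_le_of_lt ?_) (by omega) h ?_)
    · unfold om; positivity
    · rw [lev_eq hx hJ ht]; ring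

end Steps

theorem exists_G (a b : Qb) {M : ℕ} (hM : 0 < M) : ∃ G : Subgroup Gal, G.index ≠ 0 ∧
    G.index ≤ M * (Fix ℚ ({a, b} : Set Qb)).index ∧ (∀ g ∈ G, g a = a ∧ g b = b) ∧
    ∀ g ∈ G, ∀ η : Qb, η ^ M = 1 → g η = η := by
  haveI : NeZero (M : Qb) := ⟨by exact_mod_cast hM.ne'⟩
  haveI : NeZero M := ⟨hM.ne'⟩
  obtain ⟨ζ, hζ⟩ := HasEnoughRootsOfUnity.exists_primitiveRoot Qb M
  obtain ⟨h1, h2⟩ := relIndex_root (k := ℚ) (S := ({a, b} : Set Qb)) (z := ζ) hM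
    (by rw [hζ.pow_eq_one]; exact one_mem _)
  have h3 := Subgroup.relIndex_mul_index
    (Fix_anti (k := ℚ) (Set.subset_insert ζ ({a, b} : Set Qb)))
  refine ⟨Fix ℚ (insert ζ {a, b}), index_Fix_ne_zero (Set.toFinite _), ?_, fun g hg => ?_,
    fun g hg η hη => ?_⟩
  · rw [← h3]; exact Nat.mul_le_mul_right _ h2
  · exact ⟨mem_Fix.1 hg a (by simp), mem_Fix.1 hg b (by simp)⟩
  · obtain ⟨i, -, rfl⟩ := hζ.eq_pow_of_pow_eq_one hη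
    rw [map_pow, mem_Fix.1 hg ζ (by simp)]

theorem exists_unif {x : Qb} {h B E : ℝ} {Q : ℕ} (hQ : 0 < Q) (hh : 0 < h) (h1 : h ≤ lp x)
    (h2 : ‖x‖ ≤ Real.exp (B * h)) (hE : Q * E ≤ h) : ∃ ϖ : Qb, x * ϖ ^ Q = 1 ∧ ‖ϖ‖ ≤ 1 ∧
      Real.exp (-(B * h)) ≤ ‖ϖ‖ ^ Q ∧ ‖ϖ‖ * Real.exp E ≤ 1 ∧
      ∀ T : ℕ, ‖ϖ‖ ^ (T * Q) ≤ Real.exp (-(h * T)) := by
  have h3 : Real.exp h ≤ ‖x‖ := by
    rw [norm_eq_exp_lp (hh.trans_le h1)]; exact Real.exp_le_exp.2 h1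
  have h4 : 0 < ‖x‖ := (Real.exp_pos _).trans_le h3
  obtain ⟨ϖ, hϖ⟩ := IsAlgClosed.exists_pow_nat_eq x⁻¹ hQ
  have h5 : ‖ϖ‖ ^ Q = ‖x‖⁻¹ := by rw [← norm_pow, hϖ, norm_inv]
  have h6 : ‖ϖ‖ ^ Q ≤ Real.exp (-h) := by
    rw [h5, Real.exp_neg]; exact inv_anti₀ (Real.exp_pos _) h3
  refine ⟨ϖ, by rw [hϖ, mul_inv_cancel₀ (norm_pos_iff.1 h4)], ?_, ?_, ?_, fun T => ?_⟩
  · exact (pow_le_one_iff_of_nonneg (norm_nonneg _) hQ.ne').1
      (h6.trans (Real.exp_le_one_iff.2 (by linarith)))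
  · rw [h5, Real.exp_neg]; exact inv_anti₀ h4 h2
  · refine (pow_le_one_iff_of_nonneg (by positivity) hQ.ne').1 ?_
    rw [mul_pow, ← Real.exp_nat_mul]
    calc _ ≤ Real.exp (-h) * Real.exp h :=
          mul_le_mul h6 (Real.exp_le_exp.2 hE) (Real.exp_pos _).le (Real.exp_pos _).le
      _ = 1 := by rw [← Real.exp_add]; simp
  · rw [mul_comm T, pow_mul]
    refine (pow_le_pow_left₀ (by positivity) h6 T).trans (le_of_eq ?_)
    rw [← Real.exp_nat_mul]; ring_nf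

theorem sq_le_two_pow (c : ℕ) : ∃ y₀ : ℕ, ∀ y, y₀ ≤ y → c * y ^ 2 ≤ 2 ^ y := by
  have h := (tendsto_pow_const_div_const_pow_of_one_lt 2 (show (1 : ℝ) < 2 by norm_num)).eventually
    (gt_mem_nhds (show (0 : ℝ) < 1 / (c + 1) by positivity))
  obtain ⟨y₀, hy⟩ := eventually_atTop.1 h
  refine ⟨y₀, fun y hy' => ?_⟩
  have h1 := hy y hy'
  rw [div_lt_div_iff₀ (by positivity) (by positivity)] at h1
  have h2 : (c : ℝ) * y ^ 2 ≤ 2 ^ y := by nlinarith [sq_nonneg (y : ℝ)]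
  exact_mod_cast h2

theorem cnt (c : ℕ) : ∃ C : ℕ, ∀ C', C ≤ C' → ∀ L J₀ y : ℕ, 6 * J₀ + C' * (L + 1) ≤ 5 * J₀ + y →
    c * ((5 * J₀ + y) * 2 ^ L) ^ 2 ≤ 2 ^ y := by
  obtain ⟨y₀, hy⟩ := sq_le_two_pow (144 * c)
  refine ⟨2 * y₀ + 4, fun C' hC L J₀ y h => ?_⟩
  have h1 : (2 * y₀ + 4) * (L + 1) ≤ C' * (L + 1) := Nat.mul_le_mul_right _ hC
  have h2 : 2 * y₀ + 4 * L + J₀ ≤ y := by nlinarith [Nat.zero_le (y₀ * L)]
  obtain ⟨u, rfl⟩ : ∃ u, y = u + 2 * L := ⟨y - 2 * L, by omega⟩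
  have h3 : 5 * J₀ + (u + 2 * L) ≤ 12 * u := by omega
  calc _ ≤ c * ((12 * u) * 2 ^ L) ^ 2 := by gcongr
    _ = 144 * c * u ^ 2 * 2 ^ (2 * L) := by ring
    _ ≤ 2 ^ u * 2 ^ (2 * L) := Nat.mul_le_mul_right _ (hy u (by omega))
    _ = _ := by rw [← pow_add]

theorem num (C₀ C' q : ℕ) : ∃ C : ℕ, ∀ C₁, C ≤ C₁ → ∀ L J : ℕ, L ≤ J → 1 ≤ J →
    80 * q * J * q ^ J * (C₀ * (C' * (J * 2 ^ L) * q ^ J) ^ 2 + 1) ^ (3 * J) ≤
      2 ^ (C₁ * J ^ 2) := by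
  refine ⟨81 + 2 * q + 3 * (C₀ + 2 * (C' + 2 + q) + 1), fun C₁ hC L J hL hJ => ?_⟩
  have h1 : ∀ a : ℕ, a ≤ 2 ^ (a * J) := fun a =>
    Nat.lt_two_pow_self.le.trans (Nat.pow_le_pow_right two_pos (Nat.le_mul_of_pos_right _ hJ))
  have h2 : J ≤ 2 ^ J := Nat.lt_two_pow_self.le
  have h3 : 2 ^ L ≤ 2 ^ J := Nat.pow_le_pow_right two_pos hL
  have h4 : q ^ J ≤ 2 ^ (q * J) := by
    rw [pow_mul]; exact Nat.pow_le_pow_left Nat.lt_two_pow_self.le _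
  have h5 : C' * (J * 2 ^ L) * q ^ J ≤ 2 ^ ((C' + 2 + q) * J) := by
    calc _ ≤ 2 ^ (C' * J) * (2 ^ J * 2 ^ J) * 2 ^ (q * J) := by gcongr; exact h1 _
      _ = _ := by ring
  have h6 : C₀ * (C' * (J * 2 ^ L) * q ^ J) ^ 2 + 1 ≤ 2 ^ ((C₀ + 2 * (C' + 2 + q) + 1) * J) := by
    have h7 : C₀ * (C' * (J * 2 ^ L) * q ^ J) ^ 2 ≤ 2 ^ ((C₀ + 2 * (C' + 2 + q)) * J) := by
      calc _ ≤ 2 ^ (C₀ * J) * (2 ^ ((C' + 2 + q) * J)) ^ 2 := by gcongr; exact h1 _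
        _ = _ := by ring
    have h8 : 1 ≤ 2 ^ ((C₀ + 2 * (C' + 2 + q)) * J) := Nat.one_le_two_pow
    have h9 : 2 ≤ 2 ^ J := by simpa using Nat.pow_le_pow_right two_pos hJ
    calc _ ≤ 2 ^ ((C₀ + 2 * (C' + 2 + q)) * J) * 2 := by omega
      _ ≤ 2 ^ ((C₀ + 2 * (C' + 2 + q)) * J) * 2 ^ J := by gcongr
      _ = _ := by ring
  calc _ ≤ 2 ^ (80 * J) * 2 ^ (q * J) * 2 ^ J * 2 ^ (q * J) *
        (2 ^ ((C₀ + 2 * (C' + 2 + q) + 1) * J)) ^ (3 * J) := by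
        gcongr
        · exact h1 _
        · exact h1 _
    _ = 2 ^ ((81 + 2 * q) * J + 3 * (C₀ + 2 * (C' + 2 + q) + 1) * J ^ 2) := by ring
    _ ≤ _ := by
        refine Nat.pow_le_pow_right two_pos (le_trans ?_ (Nat.mul_le_mul_right _ hC))
        have : (81 + 2 * q) * J ≤ (81 + 2 * q) * J ^ 2 :=
          Nat.mul_le_mul_left _ (Nat.le_self_pow two_ne_zero J)
        nlinarith

theorem rl (hEx : ExStmt) (hRL : RL0Stmt) : RLStmt := by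
  intro p q a b B hp hpq
  have hp0 : 0 < p := by omega
  have hq0 : 0 < q := by omega
  obtain ⟨C1, hC1⟩ := stp_of_ex hEx q p a hq0
  obtain ⟨C2, hC2⟩ := stp_of_ex hEx q p b hq0
  obtain ⟨C3, hC3⟩ := stp_of_ex hEx p q (-a) hp0
  obtain ⟨C4, hC4⟩ := stp_of_ex hEx p q (-b) hp0
  obtain ⟨C₀, hC₀⟩ : ∃ C₀, C₀ = C1 + C2 + C3 + C4 := ⟨_, rfl⟩
  obtain ⟨C', hC'⟩ : ∃ C', C' = 16 * q * ⌈B⌉₊ + 5 := ⟨_, rfl⟩
  obtain ⟨I₀, hI₀⟩ : ∃ I₀, I₀ = (Fix ℚ ({a, b} : Set Qb)).index := ⟨_, rfl⟩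
  obtain ⟨C5, hC5⟩ := cnt (4 * I₀ * q ^ 3 * C' ^ 2)
  obtain ⟨C6, hC6⟩ := num C₀ C' q
  refine ⟨C5 + C6 + 1, fun L k J₀ J h X hX hJk hJ hh => ?_⟩
  have hLJ : L + 1 ≤ J := by nlinarith [Nat.zero_le ((C5 + C6) * (L + 1))]
  have hJ1 : 1 ≤ J := by omega
  have hnum := hC6 (C5 + C6 + 1) (by omega) L J (by omega) hJ1
  obtain ⟨T, hT⟩ : ∃ T, T = C' * (J * 2 ^ L) := ⟨_, rfl⟩
  have hcnt : 4 * I₀ * q ^ 3 * T ^ 2 ≤ q ^ (J - 5 * J₀) := by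
    have h1 := hC5 (C5 + C6 + 1) (by omega) L J₀ (J - 5 * J₀) (by omega)
    rw [show 5 * J₀ + (J - 5 * J₀) = J by omega] at h1
    calc _ = 4 * I₀ * q ^ 3 * C' ^ 2 * (J * 2 ^ L) ^ 2 := by rw [hT]; ring
      _ ≤ _ := h1.trans (Nat.pow_le_pow_left (by omega) _)
  rw [← hT] at hnum
  have hT1 : 1 ≤ T := by rw [hT, hC']; exact Nat.succ_le_of_lt (by positivity)
  obtain ⟨N, hN⟩ : ∃ N, N = T * q ^ J := ⟨_, rfl⟩
  have hN1 : 1 ≤ N := by rw [hN]; exact Nat.succ_le_of_lt (by positivity)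
  rw [← hN] at hnum
  obtain ⟨K, hK⟩ : ∃ K : ℝ, K = C₀ * N ^ 2 := ⟨_, rfl⟩
  have hK0 : 0 ≤ K := by rw [hK]; positivity
  obtain ⟨y, hy⟩ : ∃ y : ℝ, y = 2 ^ ((C5 + C6 + 1) * J ^ 2) := ⟨_, rfl⟩
  have hnumR : (80 * q * J : ℝ) * q ^ J * (K + 1) ^ (3 * J) ≤ y := by
    rw [hK, hy]; exact_mod_cast hnum
  rw [← hy] at hh ⊢
  have hqR : (1 : ℝ) ≤ q := by exact_mod_cast hq0
  have hJR : (1 : ℝ) ≤ J := by exact_mod_cast hJ1
  have hE1 : (1 : ℝ) ≤ (K + 1) ^ (3 * J) := one_le_pow₀ (by linarith)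
  have hQ1 : (1 : ℝ) ≤ (q : ℝ) ^ J := one_le_pow₀ hqR
  have hqJ : (1 : ℝ) ≤ q * J := one_le_mul_of_one_le_of_one_le hqR hJR
  have hy1 : (80 * q * J : ℝ) * ((K + 1) ^ (3 * J) - 1 + 1) ≤ y := by
    refine le_trans ?_ hnumR
    rw [sub_add_cancel]
    exact mul_le_mul_of_nonneg_right (le_mul_of_one_le_right (by positivity) hQ1) (by positivity)
  have hy2 : ((q ^ J : ℕ) : ℝ) * (K + 1) ^ (3 * J) ≤ h := by
    refine le_trans ?_ (hnumR.trans hh)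
    push_cast
    exact mul_le_mul_of_nonneg_right (le_mul_of_one_le_left (by positivity) (by linarith))
      (by positivity)
  have hh1 : 1 ≤ h := le_trans (by rw [hy]; exact one_le_pow₀ (by norm_num)) hh
  obtain ⟨H, hH, hHL, hfix⟩ := hX.fix
  obtain ⟨d, hd, hdl, hSz⟩ := hX.sz
  have hB : 0 ≤ B := by
    have := (Real.log_natCast_nonneg d).trans hdl
    exact nonneg_of_mul_nonneg_left this (by linarith)
  have hTR : 2 ^ L * (4 + 8 * J * q * B) + 8 * J * q * B + 1 ≤ (T : ℝ) := by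
    have h1 : (1 : ℝ) ≤ 2 ^ L := one_le_pow₀ (by norm_num)
    have h2 : 8 * J * q * B ≤ 8 * J * q * (⌈B⌉₊ : ℝ) :=
      mul_le_mul_of_nonneg_left (Nat.le_ceil B) (by positivity)
    have h3 : (0 : ℝ) ≤ 8 * J * q * B := by positivity
    rw [hT, hC']; push_cast
    nlinarith [mul_le_mul_of_nonneg_left h2 (show (0 : ℝ) ≤ 2 ^ L by positivity),
      mul_le_mul_of_nonneg_left hJR (show (0 : ℝ) ≤ 2 ^ L by positivity)]
  obtain ⟨ϖ, hϖ, hϖ1, hϖ2, hϖ3, hϖ4⟩ := exists_unif (pow_pos hq0 J) (by linarith) hX.big0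
    (hSz 0 0 (Nat.zero_le _)).norm_le hy2
  obtain ⟨ϖ', hϖ', hϖ1', hϖ2', hϖ3', hϖ4'⟩ := exists_unif (pow_pos hq0 J) (by linarith) hX.big2
    (hSz 2 0 (Nat.zero_le _)).norm_le hy2
  have hup : ∀ (G : Subgroup Gal) (M : ℕ) (π : Qb), (∀ g ∈ G, g a = a ∧ g b = b) →
      (∀ g ∈ G, ∀ η : Qb, η ^ M = 1 → g η = η) → ‖π‖ * Real.exp ((K + 1) ^ (3 * J)) ≤ 1 →
      ∀ m : Fin 4, Stp G M N (3 * J) π K q p (![a, b, a, b] m) ∧
        Stp G M N (3 * J) π K p q (-(![a, b, a, b] m)) := by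
    intro G M π h1 h2 h3
    rw [hK] at h3 ⊢
    have ha := And.intro (hC1 C₀ (by omega) G M N _ π hN1 (fun g hg => (h1 g hg).1) h2 h3)
      (hC3 C₀ (by omega) G M N _ π hN1 (fun g hg => by rw [map_neg, (h1 g hg).1]) h2 h3)
    have hb := And.intro (hC2 C₀ (by omega) G M N _ π hN1 (fun g hg => (h1 g hg).2) h2 h3)
      (hC4 C₀ (by omega) G M N _ π hN1 (fun g hg => by rw [map_neg, (h1 g hg).2]) h2 h3)
    intro m
    fin_cases m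
    exacts [ha, hb, ha, hb]
  have hlam : ∀ j ≤ 3 * J, (K + 1) ^ j - 1 ≤ (K + 1) ^ (3 * J) - 1 := fun j hj =>
    sub_le_sub_right (pow_le_pow_right₀ (by linarith) hj) 1
  have hst : ∀ (G : Subgroup Gal) (π z : Qb), z * π ^ q ^ J = 1 →
      Xp G 1 N π (z * π ^ om p q J 0) ((K + 1) ^ 0 - 1) := fun G π z hz => by
    rw [om_zero, hz, pow_zero, sub_self]; exact xp_one
  have h01 : ∀ m : Fin 4, (m = 0 ∨ m = 1) → X m 0 ^ q = X 0 0 ^ q := by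
    rintro m (rfl | rfl)
    exacts [rfl, hX.b1]
  have h23 : ∀ m : Fin 4, ¬ (m = 0 ∨ m = 1) → X m 0 ^ q = X 2 0 ^ q := by
    intro m hm
    fin_cases m
    exacts [absurd (Or.inl rfl) hm, absurd (Or.inr rfl) hm, rfl, hX.b3]
  refine ⟨?_, fun m m' t μ hm hm' ht hμ hmm A => ?_⟩
  · obtain ⟨G, hG, hGi, hGab, hGr⟩ := exists_G a b (M := q ^ J * (q * 1)) (by positivity)
    refine core hRL le_rfl hq0 hJ1 X (fun m => m = 0 ∨ m = 1) G H N N (q ^ J) (q ^ J) d ϖ ϖ'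
      (om p q J) ((K + 1) ^ (3 * J) - 1) h y B T hG hH hHL
      (fun g hg m i hi => hfix g hg m i (hi.trans hJk)) hd hdl
      (fun m i hi => hSz m i (hi.trans hJk)) ?_ (fun m hm i hi => ⟨om_le hpq.le hi, _, xp_mono
        (tower hp0 hq0 (hup G _ ϖ hGab hGr hϖ3 m).1 (hX.ch m) hJk hGr one_pos dvd_rfl (by omega)
          (h01 m hm) (hst G ϖ _ hϖ) i hi) (hlam _ (by omega))⟩)
      (fun m hm i hi => ⟨om_le hpq.le hi, _, xp_mono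
        (tower hp0 hq0 (hup G _ ϖ' hGab hGr hϖ3' m).1 (hX.ch m) hJk hGr one_pos dvd_rfl (by omega)
          (h23 m hm) (hst G ϖ' _ hϖ') i hi) (hlam _ (by omega))⟩)
      hϖ1 hϖ1' hϖ2 hϖ2' (hN ▸ hϖ4 T) (hN ▸ hϖ4' T) hB hh1 (by linarith) hy1 hh hTR
    rw [← hI₀] at hGi
    calc 4 * G.index * N * N ≤ 4 * (q ^ J * (q * 1) * I₀) * N * N := by gcongr
      _ = 4 * I₀ * q ^ 1 * T ^ 2 * q ^ (3 * J) := by rw [hN]; ring
      _ ≤ 4 * I₀ * q ^ 3 * T ^ 2 * q ^ (3 * J) := by gcongr <;> omega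
      _ ≤ q ^ (J - 5 * J₀) * q ^ (3 * J) := Nat.mul_le_mul_right _ hcnt
      _ ≤ _ := by rw [← pow_add]; exact Nat.pow_le_pow_right hq0 (by omega)
  · have hqp : 0 < q - p := by omega
    obtain ⟨G, hG, hGi, hGab, hGr⟩ := exists_G a b
      (M := q ^ J * (q * (p ^ t * ((q - p) * (q ^ t * (q * 1)))))) (by positivity)
    have hd0 : q ^ J * (q * 1) ∣ q ^ J * (q * (p ^ t * ((q - p) * (q ^ t * (q * 1))))) :=
      mul_dvd_mul_left _ (mul_dvd_mul_left _ (one_dvd _))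
    have hd1 : p ^ t * ((q - p) * (q ^ t * (q * 1))) ∣
        q ^ J * (q * (p ^ t * ((q - p) * (q ^ t * (q * 1))))) :=
      (Dvd.intro_left _ rfl).mul_left _
    have hlow := fun (m : Fin 4) (hm : m = 0 ∨ m = 1) =>
      tower hp0 hq0 (hup G _ ϖ hGab hGr hϖ3 m).1 (hX.ch m) hJk hGr one_pos hd0 (by omega)
        (h01 m hm) (hst G ϖ _ hϖ)
    have h1 := xp_root hqp hμ (fun g hg => hGr g hg μ (pow_of_dvd
      (((Dvd.intro _ rfl : q - p ∣ (q - p) * _).mul_left _).trans hd1) hμ))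
      (hlow m hm t (by omega))
    rw [← mul_assoc μ, ← hmm] at h1
    have h2 := down hp0 hq0 (hup G _ ϖ hGab hGr hϖ3 m').2 (hX.ch m') hJk t (by omega) _ _
      (by positivity) hd1 (by omega) h1
    have hm'' : ¬ (m' = 0 ∨ m' = 1) := by rcases hm' with rfl | rfl <;> decide
    have hall : ∀ (m : Fin 4), ∀ i ≤ J, ∃ m₀,
        Xp G m₀ N ϖ (X m i * ϖ ^ om p q J i) ((K + 1) ^ (3 * J) - 1) := by
      intro m i hi
      by_cases hm : m = 0 ∨ m = 1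
      · exact ⟨_, xp_mono (hlow m hm i hi) (hlam _ (by omega))⟩
      · exact ⟨_, xp_mono (tower hp0 hq0 (hup G _ ϖ hGab hGr hϖ3 m).1 (hX.ch m) hJk hGr
          (by positivity) dvd_rfl (by omega) ((h23 m hm).trans (h23 m' hm'').symm) h2 i hi)
          (hlam _ (by omega))⟩
    refine core hRL (by norm_num) hq0 hJ1 (fun i => X (A i)) (fun _ => True) G H N 1 (q ^ J) 0 d
      ϖ 0 (om p q J) ((K + 1) ^ (3 * J) - 1) h y B T hG hH hHL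
      (fun g hg m i hi => hfix g hg _ i (hi.trans hJk)) hd hdl
      (fun m i hi => hSz _ i (hi.trans hJk)) ?_
      (fun m _ i hi => ⟨om_le hpq.le hi, hall _ i hi⟩) (fun m hm => absurd trivial hm)
      hϖ1 (by simp) hϖ2 (by
        rw [pow_zero]; exact Real.exp_le_one_iff.2 (neg_nonpos.2 (by positivity)))
      (hN ▸ hϖ4 T) (by simpa using (Real.exp_pos _).le) hB hh1 (by linarith) hy1 hh hTR
    rw [← hI₀] at hGi
    have h3 : p ^ t ≤ q ^ J₀ :=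
      (Nat.pow_le_pow_left hpq.le _).trans (Nat.pow_le_pow_right hq0 ht)
    have h4 : q ^ t ≤ q ^ J₀ := Nat.pow_le_pow_right hq0 ht
    calc 4 * G.index * N * 1 ≤
          4 * (q ^ J * (q * (p ^ t * ((q - p) * (q ^ t * (q * 1))))) * I₀) * N * 1 := by gcongr
      _ ≤ 4 * (q ^ J * (q * (q ^ J₀ * (q * (q ^ J₀ * (q * 1))))) * I₀) * N * T := by
          gcongr; omega
      _ = 4 * I₀ * q ^ 3 * T ^ 2 * q ^ (2 * J + 2 * J₀) := by rw [hN]; ring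
      _ ≤ q ^ (J - 5 * J₀) * q ^ (2 * J + 2 * J₀) := Nat.mul_le_mul_right _ hcnt
      _ ≤ _ := by rw [← pow_add]; exact Nat.pow_le_pow_right hq0 (by omega)

end Pool.Agent.MP_09973c_nt.H24
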